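import Mathlib

set_option autoImplicit false

/-!
Cubical 2-complexes inside the `n`-cube containing the full 1-skeleton, their edge-path
fundamental group, and the random complex `Q₂(n,p)`.
-/

namespace Pool.Agent.V11309.Tor

open MeasureTheory

/-- Vertices of the `n`-cube: `0/1`-vectors, with addition modulo 2. -/
abbrev Vtx (n : ℕ) : Type := Fin n → ZMod 2

/-- The unit vector in direction `i`; `v + e i` is the neighbour of `v` along direction `i`. -/
def e {n : ℕ} (i : Fin n) : Vtx n := Pi.single i 1

/-- An edge walk starting at the origin is the list of the directions of its steps;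
`endpt w` is the vertex at which it ends. -/
def endpt {n : ℕ} (w : List (Fin n)) : Vtx n := (w.map e).sum

/-- A square (2-face) of the `n`-cube, given by its set of four vertices. -/
def Square (n : ℕ) : Type :=
  {s : Finset (Vtx n) // ∃ (v : Vtx n) (i j : Fin n), i ≠ j ∧
    s = {v, v + e i, v + e j, v + e i + e j}}

/-- The square with a corner `v` and directions `i`, `j`. -/
def sq {n : ℕ} (v : Vtx n) (i j : Fin n) (h : i ≠ j) : Square n :=
  ⟨{v, v + e i, v + e j, v + e i + e j}, v, i, j, h, rfl⟩

/-- The four vertices of a square. -/
def Square.verts {n : ℕ} (s : Square n) : Finset (Vtx n) := s.1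

lemma verts_sq {n : ℕ} (v : Vtx n) (i j : Fin n) (h : i ≠ j) :
    (sq v i j h).verts = {v, v + e i, v + e j, v + e i + e j} := rfl

noncomputable instance (n : ℕ) : Fintype (Square n) := by
  classical
  unfold Square
  exact Subtype.fintype _

noncomputable instance (n : ℕ) : DecidableEq (Square n) := Classical.decEq _

/-- Elementary homotopies of edge walks (starting at the origin) in the complex with all vertices
and edges of the cube and with set of squares `Q`: removing a backtracking, and replacing two
consecutive sides of a square of `Q` by the two other sides. -/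
inductive Elem {n : ℕ} (Q : Set (Square n)) : List (Fin n) → List (Fin n) → Prop
  | cancel (a : List (Fin n)) (i : Fin n) (b : List (Fin n)) :
      Elem Q (a ++ i :: i :: b) (a ++ b)
  | swap (a : List (Fin n)) (i j : Fin n) (b : List (Fin n)) (h : i ≠ j)
      (hs : sq (endpt a) i j h ∈ Q) :
      Elem Q (a ++ i :: j :: b) (a ++ j :: i :: b)

/-- Homotopy of edge walks: the equivalence relation generated by the elementary homotopies. -/
def Homot {n : ℕ} (Q : Set (Square n)) : List (Fin n) → List (Fin n) → Prop :=
  Relation.EqvGen (Elem Q)

/-- Closed edge walks based at the origin. -/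
def Loop (n : ℕ) : Type := {w : List (Fin n) // endpt w = 0}

/-- Homotopy of closed edge walks based at the origin. -/
def loopSetoid {n : ℕ} (Q : Set (Square n)) : Setoid (Loop n) where
  r a b := Homot Q a.1 b.1
  iseqv := ⟨fun _ => Relation.EqvGen.refl _, fun h => Relation.EqvGen.symm _ _ h,
    fun h h' => Relation.EqvGen.trans _ _ _ h h'⟩

/-- The (edge-path) fundamental group, based at the origin, of the 2-dimensional cubical complex
that contains all vertices and edges of the `n`-cube and the squares in `Q`. -/
def Pi1 {n : ℕ} (Q : Set (Square n)) : Type := Quotient (loopSetoid Q)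

section basic

variable {n : ℕ}

@[simp] lemma endpt_nil : endpt ([] : List (Fin n)) = 0 := rfl

@[simp] lemma endpt_cons (i : Fin n) (w : List (Fin n)) : endpt (i :: w) = e i + endpt w := by
  simp [endpt]

@[simp] lemma endpt_append (a b : List (Fin n)) : endpt (a ++ b) = endpt a + endpt b := by
  simp [endpt]

lemma endpt_reverse (a : List (Fin n)) : endpt a.reverse = endpt a := by
  unfold endpt
  rw [List.map_reverse, List.sum_reverse]

lemma add_self (v : Vtx n) : v + v = 0 := by
  funext k
  exact CharTwo.add_self_eq_zero _

lemma Elem.endpt_eq {Q : Set (Square n)} {a b : List (Fin n)} (h : Elem Q a b) :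
    endpt a = endpt b := by
  cases h with
  | cancel a i b =>
      simp only [endpt_append, endpt_cons]
      rw [← add_assoc (e i), add_self, zero_add]
  | swap a i j b h hs =>
      simp only [endpt_append, endpt_cons]
      abel

lemma Homot.endpt_eq {Q : Set (Square n)} {a b : List (Fin n)} (h : Homot Q a b) :
    endpt a = endpt b := by
  induction h with
  | rel x y h => exact h.endpt_eq
  | refl x => rfl
  | symm x y _ ih => exact ih.symm
  | trans x y z _ _ ih1 ih2 => exact ih1.trans ih2

lemma Elem.append_right {Q : Set (Square n)} {a b : List (Fin n)} (h : Elem Q a b)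
    (c : List (Fin n)) : Elem Q (a ++ c) (b ++ c) := by
  cases h with
  | cancel a i b =>
      have := Elem.cancel (Q := Q) a i (b ++ c)
      simpa using this
  | swap a i j b h hs =>
      have := Elem.swap (Q := Q) a i j (b ++ c) h hs
      simpa using this

lemma Elem.append_left {Q : Set (Square n)} {a b : List (Fin n)} (h : Elem Q a b)
    (c : List (Fin n)) (hc : endpt c = 0) : Elem Q (c ++ a) (c ++ b) := by
  cases h with
  | cancel a i b =>
      have := Elem.cancel (Q := Q) (c ++ a) i b
      simpa using this
  | swap a i j b h hs =>
      have := Elem.swap (Q := Q) (c ++ a) i j b h (by simpa [hc] using hs)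
      simpa using this

lemma Homot.refl' (Q : Set (Square n)) (a : List (Fin n)) : Homot Q a a :=
  Relation.EqvGen.refl _

lemma Homot.symm' {Q : Set (Square n)} {a b : List (Fin n)} (h : Homot Q a b) : Homot Q b a :=
  Relation.EqvGen.symm _ _ h

lemma Homot.trans' {Q : Set (Square n)} {a b c : List (Fin n)} (h : Homot Q a b)
    (h' : Homot Q b c) : Homot Q a c :=
  Relation.EqvGen.trans _ _ _ h h'

lemma Homot.append_right {Q : Set (Square n)} {a b : List (Fin n)} (h : Homot Q a b)
    (c : List (Fin n)) : Homot Q (a ++ c) (b ++ c) := by
  induction h with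
  | rel x y h => exact Relation.EqvGen.rel _ _ (h.append_right c)
  | refl x => exact Homot.refl' _ _
  | symm x y _ ih => exact ih.symm'
  | trans x y z _ _ ih1 ih2 => exact ih1.trans' ih2

lemma Homot.append_left {Q : Set (Square n)} {a b : List (Fin n)} (h : Homot Q a b)
    (c : List (Fin n)) (hc : endpt c = 0) : Homot Q (c ++ a) (c ++ b) := by
  induction h with
  | rel x y h => exact Relation.EqvGen.rel _ _ (h.append_left c hc)
  | refl x => exact Homot.refl' _ _
  | symm x y _ ih => exact ih.symm'
  | trans x y z _ _ ih1 ih2 => exact ih1.trans' ih2

lemma sq_comm (v : Vtx n) (i j : Fin n) (h : i ≠ j) : sq v i j h = sq v j i h.symm := by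
  apply Subtype.ext
  show ({v, v + e i, v + e j, v + e i + e j} : Finset (Vtx n)) =
    {v, v + e j, v + e i, v + e j + e i}
  rw [add_right_comm v (e j) (e i)]
  ext x
  simp only [Finset.mem_insert, Finset.mem_singleton]
  tauto

lemma sq_shift (v : Vtx n) (i j : Fin n) (h : i ≠ j) : sq (v + e i) i j h = sq v i j h := by
  apply Subtype.ext
  show ({v + e i, v + e i + e i, v + e i + e j, v + e i + e i + e j} : Finset (Vtx n)) =
    {v, v + e i, v + e j, v + e i + e j}
  rw [add_assoc v (e i) (e i), add_self, add_zero]
  ext x
  simp only [Finset.mem_insert, Finset.mem_singleton]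
  tauto

lemma sq_shift' (v : Vtx n) (i j : Fin n) (h : i ≠ j) : sq (v + e j) i j h = sq v i j h := by
  rw [sq_comm, sq_shift, sq_comm]

lemma Elem.reverse {Q : Set (Square n)} {a b : List (Fin n)} (h : Elem Q a b)
    (ha : endpt a = 0) : Elem Q a.reverse b.reverse := by
  cases h with
  | cancel a i b =>
      have := Elem.cancel (Q := Q) b.reverse i a.reverse
      simpa using this
  | swap a i j b h hs =>
      have hb : endpt b.reverse = endpt a + e i + e j := by
        rw [endpt_reverse]
        simp only [endpt_append, endpt_cons] at ha
        have h1 : (endpt a + e i + e j) + endpt b = 0 := by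
          rw [← ha]; abel
        have h2 : (endpt a + e i + e j) + ((endpt a + e i + e j) + endpt b) =
            (endpt a + e i + e j) := by rw [h1, add_zero]
        rw [← add_assoc, add_self, zero_add] at h2
        exact h2
      have hs' : sq (endpt b.reverse) j i h.symm ∈ Q := by
        rw [hb, sq_comm, sq_shift', sq_shift]
        exact hs
      have := Elem.swap (Q := Q) b.reverse j i a.reverse h.symm hs'
      simpa using this

lemma Homot.reverse {Q : Set (Square n)} {a b : List (Fin n)} (h : Homot Q a b)
    (ha : endpt a = 0) : Homot Q a.reverse b.reverse := by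
  induction h with
  | rel x y h => exact Relation.EqvGen.rel _ _ (h.reverse ha)
  | refl x => exact Homot.refl' _ _
  | symm x y h ih =>
      exact (ih ((Homot.endpt_eq h).trans ha)).symm'
  | trans x y z h1 _ ih1 ih2 =>
      exact (ih1 ha).trans' (ih2 ((Homot.endpt_eq h1).symm.trans ha))

lemma homot_reverse_append (Q : Set (Square n)) (w : List (Fin n)) :
    Homot Q (w.reverse ++ w) [] := by
  induction w with
  | nil => exact Homot.refl' _ _
  | cons i w ih =>
      have h : Elem Q (w.reverse ++ i :: i :: w) (w.reverse ++ w) := Elem.cancel _ _ _
      have h2 : (i :: w).reverse ++ i :: w = w.reverse ++ i :: i :: w := by simp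
      rw [h2]
      exact Homot.trans' (Relation.EqvGen.rel _ _ h) ih

/-- The group structure on the edge-path group: concatenation of closed walks. -/
instance (Q : Set (Square n)) : Group (Pi1 Q) where
  mul := Quotient.map₂ (fun a b : Loop n => (⟨a.1 ++ b.1, by rw [endpt_append, a.2, b.2, add_zero]⟩ : Loop n))
    (fun a a' ha b b' hb =>
      (Homot.append_right (Q := Q) ha b.1).trans' (Homot.append_left hb a'.1 a'.2))
  one := Quotient.mk (loopSetoid Q) ⟨[], rfl⟩
  inv := Quotient.map (fun a : Loop n => (⟨a.1.reverse, by rw [endpt_reverse, a.2]⟩ : Loop n))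
    (fun a a' ha => Homot.reverse (Q := Q) ha a.2)
  mul_assoc := by
    intro x y z
    induction x using Quotient.ind with | _ x
    induction y using Quotient.ind with | _ y
    induction z using Quotient.ind with | _ z
    apply Quotient.sound
    show Homot Q ((x.1 ++ y.1) ++ z.1) (x.1 ++ (y.1 ++ z.1))
    rw [List.append_assoc]
    exact Homot.refl' _ _
  one_mul := by
    intro x
    induction x using Quotient.ind with | _ x
    apply Quotient.sound
    exact Homot.refl' _ _
  mul_one := by
    intro x
    induction x using Quotient.ind with | _ x
    apply Quotient.sound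
    show Homot Q (x.1 ++ []) x.1
    rw [List.append_nil]
    exact Homot.refl' _ _
  inv_mul_cancel := by
    intro x
    induction x using Quotient.ind with | _ x
    apply Quotient.sound
    exact homot_reverse_append Q x.1

end basic

/-- The law of one coin: `true` with probability `p`, `false` with probability `1 - p`. -/
noncomputable def coin (p : ℝ) : Measure Bool :=
  ENNReal.ofReal p • Measure.dirac true + ENNReal.ofReal (1 - p) • Measure.dirac false

/-- The law of `Q₂(n,p)`: every square of the `n`-cube is included independently with
probability `p`; `ω s = true` means that the square `s` is included. -/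
noncomputable def law (n : ℕ) (p : ℝ) : Measure (Square n → Bool) :=
  Measure.pi fun _ => coin p

/-- The set of squares of the random complex. -/
def cx {n : ℕ} (ω : Square n → Bool) : Set (Square n) := {s | ω s = true}

end Pool.Agent.V11309.Tor
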