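import Mathlib

set_option autoImplicit false

namespace Pool.Agent.V11309.Tor

open MeasureTheory ProbabilityTheory

open scoped ENNReal

lemma indep_bound {ι κ : Type*} [Fintype ι] [DecidableEq ι] [DecidableEq κ]
    (μ : ι → Measure Bool) [∀ i, IsProbabilityMeasure (μ i)]
    (D : κ → Finset ι) (τ : κ → ι → Bool) (c : ℝ≥0∞) (U : Finset κ)
    (hdisj : ∀ u ∈ U, ∀ v ∈ U, u ≠ v → Disjoint (D u) (D v))
    (hc : ∀ u ∈ U, c ≤ Measure.pi μ {ω | ∀ s ∈ D u, ω s = τ u s}) :
    Measure.pi μ {ω | ∀ u ∈ U, ¬ ∀ s ∈ D u, ω s = τ u s} ≤ (1 - c) ^ U.card := by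
  induction U using Finset.induction_on with
  | empty => simpa using prob_le_one
  | insert u0 U hu0 ih =>
      have ih' := ih (fun u hu v hv => hdisj u (Finset.mem_insert_of_mem hu) v
        (Finset.mem_insert_of_mem hv)) (fun u hu => hc u (Finset.mem_insert_of_mem hu))
      have hind : iIndepFun (fun (i : ι) (ω : ι → Bool) => ω i) (Measure.pi μ) :=
        iIndepFun_pi (X := fun _ (b : Bool) => b) (fun _ => measurable_id.aemeasurable)
      have hd : Disjoint (D u0) (U.biUnion D) := by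
        rw [Finset.disjoint_biUnion_right]
        intro v hv
        exact hdisj u0 (Finset.mem_insert_self _ _) v (Finset.mem_insert_of_mem hv)
          (fun h => hu0 (h ▸ hv))
      have h2 := hind.indepFun_finset (D u0) (U.biUnion D) hd (fun i => measurable_pi_apply i)
      have h3 := h2.measure_inter_preimage_eq_mul
        {g : (i : D u0) → Bool | ¬ ∀ i, g i = τ u0 i}
        {g : (i : (U.biUnion D : Finset ι)) → Bool | ∀ u (hu : u ∈ U), ¬ ∀ s (hs : s ∈ D u),
          g ⟨s, Finset.mem_biUnion.2 ⟨u, hu, hs⟩⟩ = τ u s}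
        (Set.toFinite _).measurableSet (Set.toFinite _).measurableSet
      have e1 : {ω : ι → Bool | ∀ u ∈ insert u0 U, ¬ ∀ s ∈ D u, ω s = τ u s} =
        ((fun (ω : ι → Bool) (i : D u0) => ω i) ⁻¹' {g : (i : D u0) → Bool | ¬ ∀ i, g i = τ u0 i}) ∩
        ((fun (ω : ι → Bool) (i : (U.biUnion D : Finset ι)) => ω i) ⁻¹'
          {g : (i : (U.biUnion D : Finset ι)) → Bool | ∀ u (hu : u ∈ U), ¬ ∀ s (hs : s ∈ D u),
          g ⟨s, Finset.mem_biUnion.2 ⟨u, hu, hs⟩⟩ = τ u s}) := by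
        ext ω
        simp only [Set.mem_setOf_eq, Set.mem_inter_iff, Set.mem_preimage, Finset.mem_insert,
          forall_eq_or_imp, Subtype.forall]
      have e2 : ((fun (ω : ι → Bool) (i : D u0) => ω i) ⁻¹'
          {g : (i : D u0) → Bool | ¬ ∀ i, g i = τ u0 i}) =
          {ω : ι → Bool | ∀ s ∈ D u0, ω s = τ u0 s}ᶜ := by
        ext ω
        simp only [Set.mem_setOf_eq, Set.mem_preimage, Subtype.forall, Set.mem_compl_iff]
      have e3 : ((fun (ω : ι → Bool) (i : (U.biUnion D : Finset ι)) => ω i) ⁻¹'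
          {g : (i : (U.biUnion D : Finset ι)) → Bool | ∀ u (hu : u ∈ U), ¬ ∀ s (hs : s ∈ D u),
          g ⟨s, Finset.mem_biUnion.2 ⟨u, hu, hs⟩⟩ = τ u s}) =
          {ω : ι → Bool | ∀ u ∈ U, ¬ ∀ s ∈ D u, ω s = τ u s} := by
        ext ω
        simp only [Set.mem_setOf_eq, Set.mem_preimage]
      rw [e1, h3, e2, e3, Finset.card_insert_of_notMem hu0, pow_succ', prob_compl_eq_one_sub
        (Set.toFinite _).measurableSet]
      exact mul_le_mul' (tsub_le_tsub_left (hc u0 (Finset.mem_insert_self _ _)) 1) ih'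

lemma pi_cylinder {ι : Type*} [Fintype ι] [DecidableEq ι]
    (μ : ι → Measure Bool) [∀ i, IsProbabilityMeasure (μ i)]
    (D : Finset ι) (τ : ι → Bool) :
    Measure.pi μ {ω | ∀ s ∈ D, ω s = τ s} = ∏ s ∈ D, μ s {τ s} := by
  have h1 : {ω : ι → Bool | ∀ s ∈ D, ω s = τ s} =
      Set.pi Set.univ (fun s => if s ∈ D then {τ s} else Set.univ) := by
    ext ω
    simp only [Set.mem_setOf_eq, Set.mem_pi, Set.mem_univ, true_implies]
    refine forall_congr' fun s => ?_
    by_cases hs : s ∈ D <;> simp [hs]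
  rw [h1, Measure.pi_pi]
  have h2 : ∀ s, μ s (if s ∈ D then {τ s} else Set.univ) = if s ∈ D then μ s {τ s} else 1 := by
    intro s
    by_cases hs : s ∈ D
    · rw [if_pos hs, if_pos hs]
    · rw [if_neg hs, if_neg hs, measure_univ]
  simp only [h2]
  rw [Finset.prod_ite_mem]
  simp

end Pool.Agent.V11309.Tor
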