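import Pool.Agent.V11309.Tor.Prob

set_option autoImplicit false
set_option maxRecDepth 20000

namespace Pool.Agent.V11309.Tor

open MeasureTheory ProbabilityTheory Filter Topology

open scoped ENNReal

lemma coin_true (p : ℝ) : coin p {true} = ENNReal.ofReal p := by
  simp [coin]

lemma coin_false (p : ℝ) : coin p {false} = ENNReal.ofReal (1 - p) := by
  simp [coin]

lemma coin_prob (p : ℝ) (h0 : 0 ≤ p) (h1 : p ≤ 1) : IsProbabilityMeasure (coin p) := by
  constructor
  simp only [coin, Measure.coe_add, Measure.coe_smul, Pi.add_apply, Pi.smul_apply, measure_univ,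
    smul_eq_mul, mul_one]
  rw [← ENNReal.ofReal_add h0 (by linarith)]
  simp

section

variable {n : ℕ} (h5 : 5 ≤ n)

lemma cyl_bound (p : ℝ) (h0 : 0 < p) (h1 : p < 1) (u : Vtx n)
    (hu : ∀ k : Fin n, k.val < 5 → u k = 0) :
    ENNReal.ofReal ((min p (1 - p)) ^ 800 * (1 - p) ^ (6 * n)) ≤
      law n p {ω | ∀ s ∈ DD h5 u, ω s = tau u s} := by
  have : IsProbabilityMeasure (coin p) := coin_prob p h0.le h1.le
  have hq0 : 0 < min p (1 - p) := lt_min h0 (by linarith)
  have hq1 : min p (1 - p) ≤ 1 := (min_le_left _ _).trans h1.le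
  unfold law
  rw [pi_cylinder]
  have hle1 : ∀ s : Square n, coin p {tau u s} ≤ 1 := fun s => prob_le_one
  have hlow : ∀ s : Square n, ENNReal.ofReal (min p (1 - p)) ≤ coin p {tau u s} := by
    intro s
    cases tau u s with
    | true => rw [coin_true]; exact ENNReal.ofReal_le_ofReal (min_le_left _ _)
    | false => rw [coin_false]; exact ENNReal.ofReal_le_ofReal (min_le_right _ _)
  have hI : ENNReal.ofReal (min p (1 - p)) ^ 800 ≤ ∏ s ∈ DI h5 u, coin p {tau u s} := by
    calc ENNReal.ofReal (min p (1 - p)) ^ 800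
        ≤ ENNReal.ofReal (min p (1 - p)) ^ (DI h5 u).card := by
          apply pow_le_pow_right_of_le_one' _ (card_DI h5 u)
          rw [← ENNReal.ofReal_one]
          exact ENNReal.ofReal_le_ofReal hq1
      _ = ∏ _s ∈ DI h5 u, ENNReal.ofReal (min p (1 - p)) := by rw [Finset.prod_const]
      _ ≤ _ := Finset.prod_le_prod' fun s _ => hlow s
  have hE : ENNReal.ofReal (1 - p) ^ (6 * n) ≤ ∏ s ∈ DE h5 u, coin p {tau u s} := by
    calc ENNReal.ofReal (1 - p) ^ (6 * n)
        ≤ ENNReal.ofReal (1 - p) ^ (DE h5 u).card := by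
          apply pow_le_pow_right_of_le_one' _ (card_DE h5 u)
          rw [← ENNReal.ofReal_one]
          exact ENNReal.ofReal_le_ofReal (by linarith)
      _ = ∏ _s ∈ DE h5 u, ENNReal.ofReal (1 - p) := by rw [Finset.prod_const]
      _ = ∏ s ∈ DE h5 u, coin p {tau u s} := by
          refine Finset.prod_congr rfl fun s hs => ?_
          rw [tau_DE h5 u hu s hs, coin_false]
  have hU : (∏ s ∈ DI h5 u, coin p {tau u s}) * (∏ s ∈ DE h5 u, coin p {tau u s}) ≤
      ∏ s ∈ DD h5 u, coin p {tau u s} := by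
    unfold DD
    rw [← Finset.prod_union_inter]
    exact mul_le_of_le_one_right' (Finset.prod_le_one' fun s _ => hle1 s)
  rw [ENNReal.ofReal_mul (by positivity), ENNReal.ofReal_pow hq0.le,
    ENNReal.ofReal_pow (by linarith)]
  exact (mul_le_mul' hI hE).trans hU

end

/-- the positions -/
def pos (m : ℕ) (a : Fin m → ZMod 2) : Vtx (6 + m) :=
  Fin.append ![0, 0, 0, 0, 0, ∑ k, a k] a

lemma pos_inner (m : ℕ) (a : Fin m → ZMod 2) (k : Fin (6 + m)) (hk : k.val < 5) :
    pos m a k = 0 := by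
  have hk6 : k.val < 6 := by omega
  have h1 : k = Fin.castAdd m ⟨k.val, hk6⟩ := by ext; rfl
  rw [h1, pos, Fin.append_left]
  obtain ⟨v, hv⟩ := k
  simp only at hk ⊢
  interval_cases v <;> rfl

lemma pos_opar (m : ℕ) (a : Fin m → ZMod 2) : opar (pos m a) = 0 := by
  unfold opar
  rw [Fin.sum_univ_add]
  have h1 : ∀ i : Fin m, (if (Fin.natAdd 6 i).val < 5 then (0 : ZMod 2)
      else pos m a (Fin.natAdd 6 i)) = a i := by
    intro i
    rw [if_neg (by simp; omega), pos, Fin.append_right]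
  simp only [h1]
  have h2 : (∑ i : Fin 6, (if (Fin.castAdd m i).val < 5 then (0 : ZMod 2)
      else pos m a (Fin.castAdd m i))) = ∑ k, a k := by
    simp only [pos, Fin.append_left, Fin.val_castAdd]
    rw [Fin.sum_univ_six]
    simp
  rw [h2]
  exact CharTwo.add_self_eq_zero _

lemma pos_inj (m : ℕ) (a b : Fin m → ZMod 2) (h : pos m a = pos m b) : a = b := by
  funext i
  have := congrFun h (Fin.natAdd 6 i)
  rw [pos, pos, Fin.append_right, Fin.append_right] at this
  exact this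

/-- the torsion event -/
def TorsionEvent (n : ℕ) : Set (Square n → Bool) :=
  {ω | ∃ x : Pi1 (cx ω), x ≠ 1 ∧ x ^ 2 = 1}

lemma compl_bound (m : ℕ) (p : ℝ) (h0 : 0 < p) (h1 : p < 1) :
    law (6 + m) p (TorsionEvent (6 + m))ᶜ ≤
      (1 - ENNReal.ofReal ((min p (1 - p)) ^ 800 * (1 - p) ^ (6 * (6 + m)))) ^ (2 ^ m) := by
  have h5 : 5 ≤ 6 + m := by omega
  have : IsProbabilityMeasure (coin p) := coin_prob p h0.le h1.le
  have hsub : (TorsionEvent (6 + m))ᶜ ⊆
      {ω | ∀ a ∈ (Finset.univ : Finset (Fin m → ZMod 2)),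
        ¬ ∀ s ∈ DD h5 (pos m a), ω s = tau (pos m a) s} := by
    intro ω hω a _ hgood
    apply hω
    exact exists_torsion (h5 := h5) (fun k hk => pos_inner m a k hk)
      (good_of h5 _ (fun k hk => pos_inner m a k hk) ω hgood)
  refine (measure_mono hsub).trans ?_
  have := indep_bound (fun _ : Square (6 + m) => coin p) (fun a => DD h5 (pos m a))
    (fun a => tau (pos m a)) (ENNReal.ofReal ((min p (1 - p)) ^ 800 * (1 - p) ^ (6 * (6 + m))))
    (Finset.univ : Finset (Fin m → ZMod 2))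
    (fun a _ b _ hab => DD_disjoint h5 _ _ (fun k hk => pos_inner m a k hk)
      (fun k hk => pos_inner m b k hk) (pos_opar m a) (pos_opar m b)
      (fun h => hab (pos_inj m a b h)))
    (fun a _ => cyl_bound h5 p h0 h1 _ (fun k hk => pos_inner m a k hk))
  have hcard : (Finset.univ : Finset (Fin m → ZMod 2)).card = 2 ^ m := by
    rw [Finset.card_univ]
    simp [ZMod.card]
  rw [hcard] at this
  exact this

lemma compl_bound' (m : ℕ) (p : ℝ) (h0 : 0 < p) (h1 : p < 1) :
    law (6 + m) p (TorsionEvent (6 + m))ᶜ ≤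
      ENNReal.ofReal (Real.exp (-((min p (1 - p)) ^ 800 * (1 - p) ^ 36 *
        (2 * (1 - p) ^ 6) ^ m))) := by
  refine (compl_bound m p h0 h1).trans ?_
  set ε : ℝ := (min p (1 - p)) ^ 800 * (1 - p) ^ (6 * (6 + m)) with hε
  have hq0 : 0 < min p (1 - p) := lt_min h0 (by linarith)
  have hq1 : min p (1 - p) ≤ 1 := (min_le_left _ _).trans h1.le
  have hε0 : 0 ≤ ε := by
    have : 0 < 1 - p := by linarith
    positivity
  have hε1 : ε ≤ 1 := by
    refine mul_le_one₀ (pow_le_one₀ hq0.le hq1) (pow_nonneg (by linarith) _)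
      (pow_le_one₀ (by linarith) (by linarith))
  rw [← ENNReal.ofReal_one, ← ENNReal.ofReal_sub _ hε0, ← ENNReal.ofReal_pow (by linarith)]
  apply ENNReal.ofReal_le_ofReal
  calc (1 - ε) ^ (2 ^ m) ≤ (Real.exp (-ε)) ^ (2 ^ m) := by
        apply pow_le_pow_left₀ (by linarith)
        have := Real.add_one_le_exp (-ε)
        linarith
    _ = Real.exp (-(((min p (1 - p)) ^ 800 * (1 - p) ^ 36 * (2 * (1 - p) ^ 6) ^ m))) := by
        rw [← Real.exp_nat_mul]
        congr 1
        rw [hε]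
        push_cast
        rw [mul_pow, ← pow_mul, mul_add, pow_add]
        ring

lemma two_mul_pow_gt (p : ℝ) (h1 : p < 1 - (1 / 2 : ℝ) ^ (1 / 6 : ℝ)) :
    1 < 2 * (1 - p) ^ 6 := by
  have h2 : (1 / 2 : ℝ) ^ (1 / 6 : ℝ) < 1 - p := by linarith
  have h3 : ((1 / 2 : ℝ) ^ (1 / 6 : ℝ)) ^ 6 = 1 / 2 := by
    rw [← Real.rpow_natCast, ← Real.rpow_mul (by norm_num)]
    norm_num
  have h4 : ((1 / 2 : ℝ) ^ (1 / 6 : ℝ)) ^ 6 < (1 - p) ^ 6 :=
    pow_lt_pow_left₀ h2 (by positivity) (by norm_num)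
  rw [h3] at h4
  linarith

theorem tendsto_torsion (p : ℝ) (h0 : 0 < p) (h1 : p < 1 - (1 / 2 : ℝ) ^ (1 / 6 : ℝ)) :
    Tendsto (fun n => law n p (TorsionEvent n)) atTop (𝓝 1) := by
  have hp1 : p < 1 := by
    have : (0 : ℝ) < (1 / 2 : ℝ) ^ (1 / 6 : ℝ) := by positivity
    linarith
  have hprob : ∀ n, IsProbabilityMeasure (law n p) := by
    intro n
    have : IsProbabilityMeasure (coin p) := coin_prob p h0.le hp1.le
    unfold law
    infer_instance
  rw [← tendsto_add_atTop_iff_nat 6]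
  have hb : Tendsto (fun m : ℕ => ENNReal.ofReal (Real.exp (-((min p (1 - p)) ^ 800 *
      (1 - p) ^ 36 * (2 * (1 - p) ^ 6) ^ m)))) atTop (𝓝 0) := by
    rw [← ENNReal.ofReal_zero]
    apply ENNReal.tendsto_ofReal
    apply Real.tendsto_exp_neg_atTop_nhds_zero.comp
    apply Tendsto.const_mul_atTop
    · have hq0 : 0 < min p (1 - p) := lt_min h0 (by linarith)
      have : 0 < 1 - p := by linarith
      positivity
    · exact tendsto_pow_atTop_atTop_of_one_lt (two_mul_pow_gt p h1)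
  have hc : Tendsto (fun m : ℕ => 1 - ENNReal.ofReal (Real.exp (-((min p (1 - p)) ^ 800 *
      (1 - p) ^ 36 * (2 * (1 - p) ^ 6) ^ m)))) atTop (𝓝 1) := by
    have := ENNReal.Tendsto.sub (tendsto_const_nhds (x := (1 : ℝ≥0∞)) (f := atTop (α := ℕ))) hb
      (Or.inl ENNReal.one_ne_top)
    simpa using this
  refine tendsto_of_tendsto_of_tendsto_of_le_of_le hc tendsto_const_nhds ?_ ?_
  · intro m
    have h2 := compl_bound' m p h0 hp1
    have := hprob (6 + m)
    have hms : MeasurableSet (TorsionEvent (6 + m)) := (Set.toFinite _).measurableSet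
    have h3 : law (6 + m) p (TorsionEvent (6 + m)) = 1 - law (6 + m) p (TorsionEvent (6 + m))ᶜ := by
      rw [prob_compl_eq_one_sub hms]
      exact (ENNReal.sub_sub_cancel ENNReal.one_ne_top prob_le_one).symm
    show _ ≤ law (m + 6) p (TorsionEvent (m + 6))
    rw [Nat.add_comm m 6, h3]
    exact tsub_le_tsub_left h2 1
  · intro m
    have := hprob (m + 6)
    exact prob_le_one

end Pool.Agent.V11309.Tor
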