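import Pool.Agent.V11309.Tor.Topo
import Pool.Agent.V11309.Tor.Indep

set_option autoImplicit false
set_option maxRecDepth 20000

namespace Pool.Agent.V11309.Tor

open MeasureTheory ProbabilityTheory

open scoped ENNReal

/-! ### The parity function of squares -/

section par

variable {n : ℕ}

/-- number modulo 2 of the six edges of the sub-cube `u` contained in the vertex set `s` -/
def par (u : Vtx n) (s : Finset (Vtx n)) : ZMod 2 :=
  (S5L.map fun a => if u + emb n a.1 ∈ s ∧ u + emb n (a.1 + e a.2) ∈ s then (1 : ZMod 2) else 0).sum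

lemma par5 : ∀ (x : Vtx 5) (i j : Fin 5), i ≠ j →
    (S5L.map fun a => if a.1 ∈ ({x, x + e i, x + e j, x + e i + e j} : Finset (Vtx 5)) ∧
      a.1 + e a.2 ∈ ({x, x + e i, x + e j, x + e i + e j} : Finset (Vtx 5))
        then (1 : ZMod 2) else 0).sum = bd5 x i j := by
  decide +kernel

lemma parE5 : ∀ b ∈ S5L,
    (S5L.map fun a => if a.1 ∈ ({b.1, b.1 + e b.2} : Finset (Vtx 5)) ∧
      a.1 + e a.2 ∈ ({b.1, b.1 + e b.2} : Finset (Vtx 5))
        then (1 : ZMod 2) else 0).sum = 1 := by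
  decide +kernel

variable (h5 : 5 ≤ n)

include h5 in
lemma emb_inj (u : Vtx n) (hu : ∀ k : Fin n, k.val < 5 → u k = 0) (x y : Vtx 5) :
    u + emb n x = u + emb n y ↔ x = y := by
  constructor
  · intro h
    rw [← res_emb h5 u hu x, h, res_emb h5 u hu y]
  · rintro rfl
    rfl

lemma mem_in (u : Vtx n) (hu : ∀ k : Fin n, k.val < 5 → u k = 0) (x y : Vtx 5)
    (i j : Fin 5) (h : i ≠ j) :
    u + emb n y ∈ (sq (u + emb n x) (io h5 i) (io h5 j) (io_ne h5 h)).verts ↔
      y ∈ ({x, x + e i, x + e j, x + e i + e j} : Finset (Vtx 5)) := by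
  rw [verts_sq]
  simp only [Finset.mem_insert, Finset.mem_singleton]
  have a1 : u + emb n x + e (io h5 i) = u + emb n (x + e i) := by
    rw [emb_add, emb_e h5, ← add_assoc]
  have a2 : u + emb n x + e (io h5 j) = u + emb n (x + e j) := by
    rw [emb_add, emb_e h5, ← add_assoc]
  have a3 : u + emb n x + e (io h5 i) + e (io h5 j) = u + emb n (x + e i + e j) := by
    rw [a1, emb_add _ (e j), emb_e h5 j, ← add_assoc]
  rw [a3, a2, a1, emb_inj h5 u hu, emb_inj h5 u hu, emb_inj h5 u hu, emb_inj h5 u hu]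

lemma e_self (j : Fin n) : (e j : Vtx n) j = 1 := by
  simp [e]

lemma mem_ext (u : Vtx n) (hu : ∀ k : Fin n, k.val < 5 → u k = 0) (x y : Vtx 5)
    (i : Fin 5) (j : Fin n) (hj : 5 ≤ j.val) :
    u + emb n y ∈ (sq (u + emb n x) (io h5 i) j (io_ne' h5 hj)).verts ↔
      y ∈ ({x, x + e i} : Finset (Vtx 5)) := by
  rw [verts_sq]
  simp only [Finset.mem_insert, Finset.mem_singleton]
  have a1 : u + emb n x + e (io h5 i) = u + emb n (x + e i) := by
    rw [emb_add, emb_e h5, ← add_assoc]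
  have a2 : ∀ z : Vtx 5, ¬ (u + emb n y = u + emb n z + e j) := by
    intro z h
    have := congrFun h j
    rw [Pi.add_apply (u + emb n z), out_emb u y j hj, out_emb u z j hj, e_self] at this
    simp at this
  rw [a1, emb_inj h5 u hu, emb_inj h5 u hu]
  simp [a2]

lemma par_in (u : Vtx n) (hu : ∀ k : Fin n, k.val < 5 → u k = 0) (x : Vtx 5)
    (i j : Fin 5) (h : i ≠ j) :
    par u (sq (u + emb n x) (io h5 i) (io h5 j) (io_ne h5 h)).verts = bd5 x i j := by
  unfold par
  have key := fun y => mem_in h5 u hu x y i j h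
  simp only [key]
  exact par5 x i j h

lemma par_ext (u : Vtx n) (hu : ∀ k : Fin n, k.val < 5 → u k = 0) (b : Vtx 5 × Fin 5)
    (hb : b ∈ S5L) (j : Fin n) (hj : 5 ≤ j.val) :
    par u (sq (u + emb n b.1) (io h5 b.2) j (io_ne' h5 hj)).verts = 1 := by
  unfold par
  have key := fun y => mem_ext h5 u hu b.1 y b.2 j hj
  simp only [key]
  exact parE5 b hb

/-- squares inside the sub-cube -/
noncomputable def DI (u : Vtx n) : Finset (Square n) :=
  (Finset.univ : Finset (Vtx 5 × Fin 5 × Fin 5)).biUnion fun t =>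
    if h : t.2.1 ≠ t.2.2 then
      {sq (u + emb n t.1) (io h5 t.2.1) (io h5 t.2.2) (io_ne h5 h)}
    else ∅

/-- squares leaving the sub-cube and containing one of the six edges -/
noncomputable def DE (u : Vtx n) : Finset (Square n) :=
  S5L.toFinset.biUnion fun b => (Finset.univ : Finset (Fin n)).biUnion fun j =>
    if hj : 5 ≤ j.val then {sq (u + emb n b.1) (io h5 b.2) j (io_ne' h5 hj)} else ∅

noncomputable def DD (u : Vtx n) : Finset (Square n) := DI h5 u ∪ DE h5 u

lemma mem_DD (u : Vtx n) (s : Square n) : s ∈ DD h5 u ↔ s ∈ DI h5 u ∨ s ∈ DE h5 u := by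
  unfold DD
  rw [Finset.mem_union]

/-- the prescribed states -/
def tau (u : Vtx n) (s : Square n) : Bool := decide (par u s.verts = 0)

lemma mem_DI (u : Vtx n) (x : Vtx 5) (i j : Fin 5) (h : i ≠ j) :
    sq (u + emb n x) (io h5 i) (io h5 j) (io_ne h5 h) ∈ DI h5 u := by
  unfold DI
  rw [Finset.mem_biUnion]
  refine ⟨(x, i, j), Finset.mem_univ _, ?_⟩
  rw [dif_pos h]
  exact Finset.mem_singleton_self _

lemma of_mem_DI (u : Vtx n) (s : Square n) (hs : s ∈ DI h5 u) :
    ∃ (x : Vtx 5) (i j : Fin 5) (h : i ≠ j),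
      s = sq (u + emb n x) (io h5 i) (io h5 j) (io_ne h5 h) := by
  unfold DI at hs
  rw [Finset.mem_biUnion] at hs
  obtain ⟨⟨x, i, j⟩, _, hs⟩ := hs
  split_ifs at hs with h
  · exact ⟨x, i, j, h, Finset.mem_singleton.1 hs⟩
  · exact absurd hs (Finset.notMem_empty _)

lemma mem_DE (u : Vtx n) (b : Vtx 5 × Fin 5) (hb : b ∈ S5L) (j : Fin n) (hj : 5 ≤ j.val) :
    sq (u + emb n b.1) (io h5 b.2) j (io_ne' h5 hj) ∈ DE h5 u := by
  unfold DE
  rw [Finset.mem_biUnion]
  refine ⟨b, List.mem_toFinset.2 hb, ?_⟩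
  rw [Finset.mem_biUnion]
  refine ⟨j, Finset.mem_univ _, ?_⟩
  rw [dif_pos hj]
  exact Finset.mem_singleton_self _

lemma of_mem_DE (u : Vtx n) (s : Square n) (hs : s ∈ DE h5 u) :
    ∃ (b : Vtx 5 × Fin 5) (_ : b ∈ S5L) (j : Fin n) (hj : 5 ≤ j.val),
      s = sq (u + emb n b.1) (io h5 b.2) j (io_ne' h5 hj) := by
  unfold DE at hs
  rw [Finset.mem_biUnion] at hs
  obtain ⟨b, hb, hs⟩ := hs
  rw [Finset.mem_biUnion] at hs
  obtain ⟨j, _, hs⟩ := hs
  split_ifs at hs with h
  · exact ⟨b, List.mem_toFinset.1 hb, j, h, Finset.mem_singleton.1 hs⟩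
  · exact absurd hs (Finset.notMem_empty _)

lemma good_of (u : Vtx n) (hu : ∀ k : Fin n, k.val < 5 → u k = 0) (ω : Square n → Bool)
    (hω : ∀ s ∈ DD h5 u, ω s = tau u s) : Good h5 (cx ω) u where
  ev := by
    intro x i j h hb
    show ω _ = true
    rw [hω _ ((mem_DD h5 u _).2 (Or.inl (mem_DI h5 u x i j h))), tau, par_in h5 u hu x i j h, hb]
    rfl
  od := by
    intro x i j h hb
    show ¬ (ω _ = true)
    rw [hω _ ((mem_DD h5 u _).2 (Or.inl (mem_DI h5 u x i j h))), tau, par_in h5 u hu x i j h]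
    simp [hb]
  ext := by
    intro b hb j hj
    show ¬ (ω _ = true)
    rw [hω _ ((mem_DD h5 u _).2 (Or.inr (mem_DE h5 u b hb j hj))), tau, par_ext h5 u hu b hb j hj]
    simp

lemma card_DI (u : Vtx n) : (DI h5 u).card ≤ 800 := by
  unfold DI
  refine (Finset.card_biUnion_le_card_mul _ _ 1 ?_).trans ?_
  · intro t _
    split_ifs <;> simp
  · rw [Finset.card_univ]
    simp only [Fintype.card_prod, Fintype.card_fin, Fintype.card_fun, ZMod.card]
    norm_num

lemma card_DE (u : Vtx n) : (DE h5 u).card ≤ 6 * n := by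
  unfold DE
  refine (Finset.card_biUnion_le_card_mul _ _ n ?_).trans ?_
  · intro b _
    refine (Finset.card_biUnion_le_card_mul _ _ 1 ?_).trans ?_
    · intro t _
      split_ifs <;> simp
    · simp
  · exact Nat.mul_le_mul ((List.toFinset_card_le _).trans (by decide)) le_rfl

lemma tau_DE (u : Vtx n) (hu : ∀ k : Fin n, k.val < 5 → u k = 0) (s : Square n)
    (hs : s ∈ DE h5 u) : tau u s = false := by
  obtain ⟨b, h2, j, h3, rfl⟩ := of_mem_DE h5 u s hs
  have := par_ext h5 u hu b h2 j h3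
  simp only [tau]
  rw [this]
  rfl

end par

/-! ### Disjointness -/

section disj

variable {n : ℕ}

/-- parity of the outer coordinates -/
def opar (v : Vtx n) : ZMod 2 := ∑ k : Fin n, if k.val < 5 then 0 else v k

lemma opar_add_e (v : Vtx n) (j : Fin n) (hj : 5 ≤ j.val) : opar (v + e j) = opar v + 1 := by
  unfold opar
  have h1 : ∀ k : Fin n, (if k.val < 5 then (0 : ZMod 2) else (v + e j) k) =
      (if k.val < 5 then 0 else v k) + (if k = j then 1 else 0) := by
    intro k
    by_cases hk : k.val < 5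
    · have : k ≠ j := by rintro rfl; omega
      simp [hk, this]
    · simp [hk, e, Pi.single_apply]
  simp only [h1]
  rw [Finset.sum_add_distrib]
  congr 1
  simp

lemma opar_congr (v w : Vtx n) (h : ∀ j : Fin n, 5 ≤ j.val → v j = w j) : opar v = opar w := by
  unfold opar
  refine Finset.sum_congr rfl fun k _ => ?_
  by_cases hk : k.val < 5
  · simp [hk]
  · simp [hk, h k (by omega)]

variable (h5 : 5 ≤ n)

lemma exists_vertex (u : Vtx n) (s : Square n) (hs : s ∈ DD h5 u) :
    ∃ v ∈ s.verts, ∀ j : Fin n, 5 ≤ j.val → v j = u j := by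
  rw [mem_DD] at hs
  rcases hs with hs | hs
  · obtain ⟨x, i, j, h, rfl⟩ := of_mem_DI h5 u s hs
    refine ⟨u + emb n x, ?_, fun j hj => out_emb u x j hj⟩
    rw [verts_sq]
    simp
  · obtain ⟨b, h2, j, h3, rfl⟩ := of_mem_DE h5 u s hs
    refine ⟨u + emb n b.1, ?_, fun j hj => out_emb u b.1 j hj⟩
    rw [verts_sq]
    simp

lemma forall_vertex (u : Vtx n) (s : Square n) (hs : s ∈ DD h5 u) (v : Vtx n)
    (hv : v ∈ s.verts) :
    (∀ j : Fin n, 5 ≤ j.val → v j = u j) ∨ opar v = opar u + 1 := by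
  rw [mem_DD] at hs
  rcases hs with hs | hs
  · obtain ⟨x, i, j, h, rfl⟩ := of_mem_DI h5 u s hs
    left
    intro k hk
    rw [verts_sq] at hv
    simp only [Finset.mem_insert, Finset.mem_singleton] at hv
    rcases hv with rfl | rfl | rfl | rfl
    · exact out_emb u x k hk
    · rw [Pi.add_apply (u + emb n x), e_out h5 i k hk, add_zero, out_emb u x k hk]
    · rw [Pi.add_apply (u + emb n x), e_out h5 j k hk, add_zero, out_emb u x k hk]
    · rw [Pi.add_apply (u + emb n x + _), Pi.add_apply (u + emb n x), e_out h5 i k hk,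
        e_out h5 j k hk, add_zero, add_zero, out_emb u x k hk]
  · obtain ⟨b, h2, j, hj, rfl⟩ := of_mem_DE h5 u s hs
    rw [verts_sq] at hv
    simp only [Finset.mem_insert, Finset.mem_singleton] at hv
    have o1 : ∀ k : Fin n, 5 ≤ k.val → (u + emb n b.1) k = u k := fun k hk => out_emb u b.1 k hk
    have o2 : ∀ k : Fin n, 5 ≤ k.val → (u + emb n b.1 + e (io h5 b.2)) k = u k := by
      intro k hk
      rw [Pi.add_apply (u + emb n b.1), e_out h5 b.2 k hk, add_zero, out_emb u b.1 k hk]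
    rcases hv with rfl | rfl | rfl | rfl
    · exact Or.inl o1
    · exact Or.inl o2
    · right
      rw [opar_add_e _ j hj, opar_congr _ _ o1]
    · right
      rw [opar_add_e _ j hj, opar_congr _ _ o2]

lemma DD_disjoint (u u' : Vtx n) (hu : ∀ k : Fin n, k.val < 5 → u k = 0)
    (hu' : ∀ k : Fin n, k.val < 5 → u' k = 0) (h0 : opar u = 0) (h0' : opar u' = 0)
    (hne : u ≠ u') : Disjoint (DD h5 u) (DD h5 u') := by
  rw [Finset.disjoint_left]
  intro s hs hs'
  obtain ⟨v, hv, hvu⟩ := exists_vertex h5 u s hs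
  have hpv : opar v = 0 := by rw [opar_congr _ _ hvu, h0]
  rcases forall_vertex h5 u' s hs' v hv with h | h
  · apply hne
    funext k
    by_cases hk : k.val < 5
    · rw [hu k hk, hu' k hk]
    · rw [← hvu k (by omega), h k (by omega)]
  · rw [hpv, h0'] at h
    simp at h

end disj

end Pool.Agent.V11309.Tor
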