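import Pool.Agent.V11309.Tor.Defs

set_option autoImplicit false

namespace Pool.Agent.V11309.Tor

/-! ### The cochain on the 5-cube and the certificate -/

/-- The six edges carrying the cochain (in the 5-cube). -/
def S5L : List (Vtx 5 × Fin 5) :=
  [(![0,0,0,0,0], 0), (![0,1,0,0,0], 0), (![0,1,1,0,0], 0), (![0,0,1,0,0], 1),
    (![0,0,1,0,0], 3), (![0,0,0,0,0], 3)]

def S5 (x : Vtx 5) (d : Fin 5) : ZMod 2 :=
  if (x, d) ∈ S5L ∨ (x + e d, d) ∈ S5L then 1 else 0

def bd5 (x : Vtx 5) (i j : Fin 5) : ZMod 2 :=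
  S5 x i + S5 (x + e i) j + S5 (x + e j) i + S5 x j

inductive E5 : List (Fin 5) → List (Fin 5) → Prop
  | cancel (a : List (Fin 5)) (i : Fin 5) (b : List (Fin 5)) : E5 (a ++ i :: i :: b) (a ++ b)
  | swap (a : List (Fin 5)) (i j : Fin 5) (b : List (Fin 5)) (h : i ≠ j)
      (hb : bd5 (endpt a) i j = 0) : E5 (a ++ i :: j :: b) (a ++ j :: i :: b)

inductive Mv
  | sw (k : ℕ)
  | dl (k : ℕ)
  | ins (k : ℕ) (i : Fin 5)

def step1 (m : Mv) (w : List (Fin 5)) : Option (List (Fin 5)) :=
  match m with
  | .sw k =>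
    match w.drop k with
    | i :: j :: b =>
      if i ≠ j ∧ bd5 (endpt (w.take k)) i j = 0 then some (w.take k ++ j :: i :: b) else none
    | _ => none
  | .dl k =>
    match w.drop k with
    | i :: j :: b => if i = j then some (w.take k ++ b) else none
    | _ => none
  | .ins k i => some (w.take k ++ i :: i :: w.drop k)

def run : List Mv → List (Fin 5) → Option (List (Fin 5))
  | [], w => some w
  | m :: ms, w => match step1 m w with
    | some w' => run ms w'
    | none => none

lemma step1_sound (m : Mv) (w w' : List (Fin 5)) (h : step1 m w = some w') :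
    Relation.EqvGen E5 w w' := by
  cases m with
  | sw k =>
      simp only [step1] at h
      split at h
      · rename_i i j b hd
        split_ifs at h with hc
        · have hw : w = w.take k ++ i :: j :: b := by rw [← hd, List.take_append_drop]
          simp only [Option.some.injEq] at h
          rw [← h]
          conv_lhs => rw [hw]
          exact Relation.EqvGen.rel _ _ (E5.swap _ _ _ _ hc.1 hc.2)
      · simp at h
  | dl k =>
      simp only [step1] at h
      split at h
      · rename_i i j b hd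
        split_ifs at h with hc
        · subst hc
          have hw : w = w.take k ++ i :: i :: b := by rw [← hd, List.take_append_drop]
          simp only [Option.some.injEq] at h
          rw [← h]
          conv_lhs => rw [hw]
          exact Relation.EqvGen.rel _ _ (E5.cancel _ _ _)
      · simp at h
  | ins k i =>
      simp only [step1, Option.some.injEq] at h
      rw [← h]
      have := E5.cancel (w.take k) i (w.drop k)
      rw [List.take_append_drop] at this
      exact Relation.EqvGen.symm _ _ (Relation.EqvGen.rel _ _ this)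

lemma run_sound (ms : List Mv) : ∀ (w w' : List (Fin 5)), run ms w = some w' →
    Relation.EqvGen E5 w w' := by
  induction ms with
  | nil =>
      intro w w' h
      simp only [run, Option.some.injEq] at h
      rw [h]
      exact Relation.EqvGen.refl _
  | cons m ms ih =>
      intro w w' h
      simp only [run] at h
      split at h
      · rename_i w1 h1
        exact Relation.EqvGen.trans _ _ _ (step1_sound m w w1 h1) (ih w1 w' h)
      · simp at h

/-- The loop. -/
def gam : List (Fin 5) := [1, 2, 3, 1, 2, 0, 3, 0]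

def cert : List Mv :=
  [.sw 7, .sw 8, .ins 9 1, .sw 10, .sw 11, .dl 12, .sw 11, .sw 12, .dl 13, .dl 12, .ins 0 4,
    .sw 1, .sw 2, .sw 3, .sw 4, .sw 5, .sw 6, .sw 7, .sw 8, .sw 9, .sw 10, .sw 11, .sw 12,
    .sw 9, .dl 8, .sw 9, .dl 8, .sw 7, .dl 6, .sw 3, .sw 2, .dl 1, .sw 2, .dl 1, .dl 1, .dl 0]

lemma run_cert : run cert (gam ++ gam) = some [] := by decide +kernel

lemma gam_sq : Relation.EqvGen E5 (gam ++ gam) [] := run_sound _ _ _ run_cert

def phi5 (x : Vtx 5) : List (Fin 5) → ZMod 2
  | [] => 0
  | i :: w => S5 x i + phi5 (x + e i) w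

lemma phi5_gam : phi5 0 gam = 1 := by decide +kernel

lemma endpt_gam : endpt gam = 0 := by decide +kernel

lemma S5_symm (x : Vtx 5) (d : Fin 5) : S5 (x + e d) d = S5 x d := by
  unfold S5
  rw [add_assoc, add_self, add_zero]
  congr 1
  exact propext or_comm

/-! ### Transfer to the `n`-cube -/

section transfer

variable {n : ℕ} (h5 : 5 ≤ n)

def io (k : Fin 5) : Fin n := Fin.castLE h5 k

def emb (n : ℕ) (x : Vtx 5) : Vtx n := fun k => if h : k.val < 5 then x ⟨k.val, h⟩ else 0

def res (v : Vtx n) : Vtx 5 := fun k => v (io h5 k)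

lemma emb_add (x y : Vtx 5) : emb n (x + y) = emb n x + emb n y := by
  funext k
  simp only [emb, Pi.add_apply]
  split_ifs <;> simp

lemma emb_zero : emb n 0 = 0 := by
  funext k
  simp [emb]

lemma emb_e (i : Fin 5) : emb n (e i) = e (io h5 i) := by
  funext k
  have hv : (io h5 i).val = i.val := rfl
  by_cases h1 : k.val < 5
  · simp only [emb, e, Pi.single_apply, dif_pos h1]
    congr 1
    rw [Fin.ext_iff, Fin.ext_iff, hv]
  · simp only [emb, e, Pi.single_apply, dif_neg h1]
    rw [if_neg]
    intro h3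
    apply h1
    rw [h3, hv]
    exact i.2

lemma endpt_map (w : List (Fin 5)) : endpt (w.map (io h5)) = emb n (endpt w) := by
  induction w with
  | nil => simp [emb_zero]
  | cons i w ih => simp only [List.map_cons, endpt_cons, ih, emb_add, emb_e h5]

lemma io_ne {i j : Fin 5} (h : i ≠ j) : io h5 i ≠ io h5 j := by
  intro h'
  apply h
  have := congrArg Fin.val h'
  ext
  exact this

lemma io_ne' {i : Fin 5} {j : Fin n} (h : 5 ≤ j.val) : io h5 i ≠ j := by
  intro h'
  have := congrArg Fin.val h'
  have h2 : (io h5 i).val = i.val := rfl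
  have := i.2
  omega

/-- The configuration at the sub-cube `u`: inside the sub-cube a square is present if and only if
it contains an even number of the six edges, and no square of `Q` leaving the sub-cube contains one
of the six edges. -/
structure Good (Q : Set (Square n)) (u : Vtx n) : Prop where
  ev : ∀ (x : Vtx 5) (i j : Fin 5) (h : i ≠ j), bd5 x i j = 0 →
    sq (u + emb n x) (io h5 i) (io h5 j) (io_ne h5 h) ∈ Q
  od : ∀ (x : Vtx 5) (i j : Fin 5) (h : i ≠ j), bd5 x i j ≠ 0 →
    sq (u + emb n x) (io h5 i) (io h5 j) (io_ne h5 h) ∉ Q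
  ext : ∀ a ∈ S5L, ∀ (j : Fin n) (hj : 5 ≤ j.val),
    sq (u + emb n a.1) (io h5 a.2) j (io_ne' h5 hj) ∉ Q

variable {h5}

lemma Good.ext' {Q : Set (Square n)} {u : Vtx n} (hg : Good h5 Q u) (x : Vtx 5) (i : Fin 5)
    (hx : S5 x i ≠ 0) (j : Fin n) (hj : 5 ≤ j.val) :
    sq (u + emb n x) (io h5 i) j (io_ne' h5 hj) ∉ Q := by
  unfold S5 at hx
  split_ifs at hx with h
  · rcases h with h | h
    · exact hg.ext _ h j hj
    · have := hg.ext _ h j hj
      simp only [emb_add, emb_e h5] at this
      rw [← add_assoc, sq_shift] at this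
      exact this
  · exact absurd rfl hx

lemma E5.transfer {Q : Set (Square n)} {u : Vtx n} (hg : Good h5 Q u)
    {w w' : List (Fin 5)} (h : E5 w w') (p q : List (Fin n)) (hp : endpt p = u) :
    Elem Q (p ++ w.map (io h5) ++ q) (p ++ w'.map (io h5) ++ q) := by
  cases h with
  | cancel a i b =>
      have := Elem.cancel (Q := Q) (p ++ a.map (io h5)) (io h5 i) (b.map (io h5) ++ q)
      simpa using this
  | swap a i j b h hb =>
      have hs : sq (endpt (p ++ a.map (io h5))) (io h5 i) (io h5 j) (io_ne h5 h) ∈ Q := by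
        rw [endpt_append, hp, endpt_map]
        exact hg.ev _ i j h hb
      have := Elem.swap (Q := Q) (p ++ a.map (io h5)) (io h5 i) (io h5 j) (b.map (io h5) ++ q)
        (io_ne h5 h) hs
      simpa using this

lemma transfer {Q : Set (Square n)} {u : Vtx n} (hg : Good h5 Q u)
    {w w' : List (Fin 5)} (h : Relation.EqvGen E5 w w') (p q : List (Fin n)) (hp : endpt p = u) :
    Homot Q (p ++ w.map (io h5) ++ q) (p ++ w'.map (io h5) ++ q) := by
  induction h with
  | rel x y h => exact Relation.EqvGen.rel _ _ (h.transfer hg p q hp)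
  | refl x => exact Homot.refl' _ _
  | symm x y _ ih => exact ih.symm'
  | trans x y z _ _ ih1 ih2 => exact ih1.trans' ih2

lemma homot_cancel_ctx (Q : Set (Square n)) (a b w : List (Fin n)) :
    Homot Q (a ++ (w.reverse ++ w) ++ b) (a ++ b) := by
  induction w with
  | nil => simpa using Homot.refl' Q (a ++ b)
  | cons i w ih =>
      have h : Elem Q ((a ++ w.reverse) ++ i :: i :: (w ++ b)) ((a ++ w.reverse) ++ (w ++ b)) :=
        Elem.cancel _ _ _
      have h2 : a ++ ((i :: w).reverse ++ i :: w) ++ b
          = (a ++ w.reverse) ++ i :: i :: (w ++ b) := by simp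
      have h3 : (a ++ w.reverse) ++ (w ++ b) = a ++ (w.reverse ++ w) ++ b := by simp
      rw [h2]
      refine Homot.trans' (Relation.EqvGen.rel _ _ h) ?_
      rw [h3]
      exact ih

variable (h5)

/-- The cochain in the `n`-cube. -/
def cu (u v : Vtx n) (k : Fin n) : ZMod 2 :=
  open Classical in
  if h : k.val < 5 ∧ ∀ j : Fin n, 5 ≤ j.val → v j = u j then S5 (res h5 v) ⟨k.val, h.1⟩ else 0

lemma cu_of_ge (u v : Vtx n) (k : Fin n) (hk : 5 ≤ k.val) : cu h5 u v k = 0 := by
  unfold cu
  rw [dif_neg]
  intro h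
  omega

lemma cu_of_out (u v : Vtx n) (k : Fin n) (h : ¬ ∀ j : Fin n, 5 ≤ j.val → v j = u j) :
    cu h5 u v k = 0 := by
  unfold cu
  rw [dif_neg]
  intro h'
  exact h h'.2

lemma res_emb (u : Vtx n) (hu : ∀ k : Fin n, k.val < 5 → u k = 0) (x : Vtx 5) :
    res h5 (u + emb n x) = x := by
  funext k
  have h1 : (io h5 k).val = k.val := rfl
  simp only [res, Pi.add_apply, emb]
  rw [hu _ (by rw [h1]; exact k.2), dif_pos (by rw [h1]; exact k.2), zero_add]
  rfl

lemma out_emb (u : Vtx n) (x : Vtx 5) (j : Fin n) (hj : 5 ≤ j.val) : (u + emb n x) j = u j := by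
  simp only [Pi.add_apply, emb]
  rw [dif_neg (by omega), add_zero]

lemma cu_emb (u : Vtx n) (hu : ∀ k : Fin n, k.val < 5 → u k = 0) (x : Vtx 5) (i : Fin 5) :
    cu h5 u (u + emb n x) (io h5 i) = S5 x i := by
  unfold cu
  rw [dif_pos ⟨i.2, fun j hj => out_emb u x j hj⟩, res_emb h5 u hu]
  rfl

/-- a vertex of the sub-cube is `u + emb x` -/
lemma eq_emb (u v : Vtx n) (hu : ∀ k : Fin n, k.val < 5 → u k = 0)
    (hv : ∀ j : Fin n, 5 ≤ j.val → v j = u j) : v = u + emb n (res h5 v) := by
  funext k
  by_cases hk : k.val < 5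
  · simp only [Pi.add_apply, emb, res]
    rw [hu k hk, dif_pos hk, zero_add]
    rfl
  · rw [out_emb u _ k (by omega)]
    exact hv k (by omega)

lemma exists_io (k : Fin n) (hk : k.val < 5) : ∃ i : Fin 5, io h5 i = k :=
  ⟨⟨k.val, hk⟩, by ext; rfl⟩

lemma e_out (i : Fin 5) (j : Fin n) (hj : 5 ≤ j.val) : (e (io h5 i) : Vtx n) j = 0 := by
  simp only [e, Pi.single_apply]
  rw [if_neg]
  intro h
  exact io_ne' h5 hj h.symm

lemma cu_symm (u v : Vtx n) (hu : ∀ k : Fin n, k.val < 5 → u k = 0) (k : Fin n) :
    cu h5 u (v + e k) k = cu h5 u v k := by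
  by_cases hk : k.val < 5
  · obtain ⟨i, rfl⟩ := exists_io h5 k hk
    by_cases hv : ∀ j : Fin n, 5 ≤ j.val → v j = u j
    · have h1 := eq_emb h5 u v hu hv
      rw [h1, add_assoc, ← emb_e h5, ← emb_add, cu_emb h5 u hu, cu_emb h5 u hu, S5_symm]
    · rw [cu_of_out h5 u v _ hv, cu_of_out]
      intro h
      apply hv
      intro j hj
      have := h j hj
      rw [Pi.add_apply, e_out h5 i j hj, add_zero] at this
      exact this
  · rw [cu_of_ge h5 u _ k (by omega), cu_of_ge h5 u _ k (by omega)]

variable {h5}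

lemma cocycle {Q : Set (Square n)} {u : Vtx n} (hu : ∀ k : Fin n, k.val < 5 → u k = 0)
    (hg : Good h5 Q u) (v : Vtx n) (i j : Fin n) (h : i ≠ j) (hs : sq v i j h ∈ Q) :
    cu h5 u v i + cu h5 u (v + e i) j + cu h5 u (v + e j) i + cu h5 u v j = 0 := by
  -- mixed case
  have mixed : ∀ (v : Vtx n) (i : Fin 5) (j : Fin n) (hj : 5 ≤ j.val),
      sq v (io h5 i) j (io_ne' h5 hj) ∈ Q → cu h5 u v (io h5 i) = 0 := by
    intro v i j hj hs
    by_cases hv : ∀ j : Fin n, 5 ≤ j.val → v j = u j
    · have h1 := eq_emb h5 u v hu hv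
      by_contra hne
      rw [h1, cu_emb h5 u hu] at hne
      rw [h1] at hs
      exact hg.ext' _ i hne j hj hs
    · exact cu_of_out h5 u v _ hv
  by_cases hi : i.val < 5
  · obtain ⟨i, rfl⟩ := exists_io h5 i hi
    by_cases hj : j.val < 5
    · obtain ⟨j, rfl⟩ := exists_io h5 j hj
      have hij : i ≠ j := by
        intro h'
        exact h (by rw [h'])
      by_cases hv : ∀ j : Fin n, 5 ≤ j.val → v j = u j
      · have h1 := eq_emb h5 u v hu hv
        have hev : bd5 (res h5 v) i j = 0 := by
          by_contra hne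
          have := hg.od _ i j hij hne
          rw [← h1] at this
          exact this hs
        unfold bd5 at hev
        have e1 : v + e (io h5 i) = u + emb n (res h5 v + e i) := by
          rw [emb_add, emb_e h5, ← add_assoc, ← h1]
        have e2 : v + e (io h5 j) = u + emb n (res h5 v + e j) := by
          rw [emb_add, emb_e h5, ← add_assoc, ← h1]
        rw [e1, e2, cu_emb h5 u hu, cu_emb h5 u hu]
        have e3 : ∀ k, cu h5 u v (io h5 k) = S5 (res h5 v) k := by
          intro k
          conv_lhs => rw [h1]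
          exact cu_emb h5 u hu _ _
        rw [e3, e3]
        exact hev
      · have hv1 : ∀ i : Fin 5, ¬ ∀ j : Fin n, 5 ≤ j.val → (v + e (io h5 i)) j = u j := by
          intro i h
          apply hv
          intro j hj
          have := h j hj
          rw [Pi.add_apply, e_out h5 i j hj, add_zero] at this
          exact this
        rw [cu_of_out h5 u v _ hv, cu_of_out h5 u v _ hv, cu_of_out h5 u _ _ (hv1 _),
          cu_of_out h5 u _ _ (hv1 _)]
        simp
    · have hj' : 5 ≤ j.val := by omega
      rw [cu_of_ge h5 u _ j hj', cu_of_ge h5 u _ j hj', mixed v i j hj' hs,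
        mixed (v + e j) i j hj' (by rw [sq_shift']; exact hs)]
      simp
  · have hi' : 5 ≤ i.val := by omega
    by_cases hj : j.val < 5
    · obtain ⟨j, rfl⟩ := exists_io h5 j hj
      rw [cu_of_ge h5 u _ i hi', cu_of_ge h5 u _ i hi',
        mixed v j i hi' (by rw [sq_comm]; exact hs),
        mixed (v + e i) j i hi' (by rw [sq_comm, sq_shift]; exact hs)]
      simp
    · have hj' : 5 ≤ j.val := by omega
      rw [cu_of_ge h5 u _ i hi', cu_of_ge h5 u _ i hi', cu_of_ge h5 u _ j hj',
        cu_of_ge h5 u _ j hj']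
      simp

variable (h5)

def phi (u : Vtx n) (v : Vtx n) : List (Fin n) → ZMod 2
  | [] => 0
  | k :: w => cu h5 u v k + phi u (v + e k) w

lemma phi_append (u v : Vtx n) (a b : List (Fin n)) :
    phi h5 u v (a ++ b) = phi h5 u v a + phi h5 u (v + endpt a) b := by
  induction a generalizing v with
  | nil => simp [phi]
  | cons k a ih =>
      simp only [List.cons_append, phi, ih, endpt_cons, ← add_assoc]

lemma phi_far (u v : Vtx n) (p : List (Fin n)) (hp : ∀ k ∈ p, 5 ≤ k.val) : phi h5 u v p = 0 := by
  induction p generalizing v with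
  | nil => rfl
  | cons k p ih =>
      simp only [phi]
      rw [cu_of_ge h5 u v k (hp k (by simp)), ih _ (fun k hk => hp k (by simp [hk])), add_zero]

lemma phi_map (u : Vtx n) (hu : ∀ k : Fin n, k.val < 5 → u k = 0) (w : List (Fin 5)) (x : Vtx 5) :
    phi h5 u (u + emb n x) (w.map (io h5)) = phi5 x w := by
  induction w generalizing x with
  | nil => rfl
  | cons i w ih =>
      simp only [List.map_cons, phi, phi5]
      rw [cu_emb h5 u hu, add_assoc, ← emb_e h5, ← emb_add, ih]

variable {h5}

lemma Elem.phi_eq {Q : Set (Square n)} {u : Vtx n} (hu : ∀ k : Fin n, k.val < 5 → u k = 0)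
    (hg : Good h5 Q u) {a b : List (Fin n)} (h : Elem Q a b) : phi h5 u 0 a = phi h5 u 0 b := by
  cases h with
  | cancel a i b =>
      rw [phi_append, phi_append]
      congr 1
      simp only [phi]
      rw [cu_symm h5 u _ hu, ← add_assoc, CharTwo.add_self_eq_zero, zero_add]
      rw [add_assoc (0 + endpt a), add_self, add_zero]
  | swap a i j b h hs =>
      rw [phi_append, phi_append]
      congr 1
      simp only [phi, zero_add]
      have hc := cocycle hu hg (endpt a) i j h hs
      rw [add_right_comm (endpt a) (e j) (e i)]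
      have h2 : cu h5 u (endpt a) i + cu h5 u (endpt a + e i) j =
          cu h5 u (endpt a) j + cu h5 u (endpt a + e j) i := by
        have h3 : (cu h5 u (endpt a) i + cu h5 u (endpt a + e i) j) +
          (cu h5 u (endpt a) j + cu h5 u (endpt a + e j) i) = 0 := by
          rw [← hc]; ring
        have h4 := CharTwo.add_self_eq_zero (cu h5 u (endpt a) j + cu h5 u (endpt a + e j) i)
        exact add_right_cancel (h3.trans h4.symm)
      rw [← add_assoc, ← add_assoc, h2]

lemma Homot.phi_eq {Q : Set (Square n)} {u : Vtx n} (hu : ∀ k : Fin n, k.val < 5 → u k = 0)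
    (hg : Good h5 Q u) {a b : List (Fin n)} (h : Homot Q a b) : phi h5 u 0 a = phi h5 u 0 b := by
  induction h with
  | rel x y h => exact h.phi_eq hu hg
  | refl x => rfl
  | symm x y _ ih => exact ih.symm
  | trans x y z _ _ ih1 ih2 => exact ih1.trans ih2

lemma exists_path (u : Vtx n) (hu : ∀ k : Fin n, k.val < 5 → u k = 0) :
    ∃ p : List (Fin n), endpt p = u ∧ ∀ k ∈ p, 5 ≤ k.val := by
  classical
  refine ⟨(Finset.univ.filter fun k => u k ≠ 0).toList, ?_, ?_⟩
  · unfold endpt
    rw [Finset.sum_map_toList]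
    funext j
    rw [Finset.sum_apply]
    simp only [e, Pi.single_apply]
    rw [Finset.sum_ite_eq]
    simp only [Finset.mem_filter, Finset.mem_univ, true_and]
    generalize u j = t
    revert t
    decide
  · intro k hk
    simp only [Finset.mem_toList, Finset.mem_filter, Finset.mem_univ, true_and] at hk
    by_contra h
    exact hk (hu k (by omega))

/-- At a good position there is an element of order two. -/
theorem exists_torsion {Q : Set (Square n)} {u : Vtx n} (hu : ∀ k : Fin n, k.val < 5 → u k = 0)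
    (hg : Good h5 Q u) : ∃ x : Pi1 Q, x ≠ 1 ∧ x ^ 2 = 1 := by
  obtain ⟨p, hp, hp5⟩ := exists_path u hu
  have hloop : endpt (p ++ gam.map (io h5) ++ p.reverse) = 0 := by
    rw [endpt_append, endpt_append, endpt_reverse, endpt_map, endpt_gam, emb_zero, add_zero,
      add_self]
  let L : Loop n := ⟨p ++ gam.map (io h5) ++ p.reverse, hloop⟩
  let X : Pi1 Q := Quotient.mk (loopSetoid Q) L
  refine ⟨X, ?_, ?_⟩
  · intro h
    have h1 : Homot Q (p ++ gam.map (io h5) ++ p.reverse) [] := Quotient.exact h
    have h2 := h1.phi_eq hu hg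
    rw [phi_append, phi_append, phi_far h5 u 0 p hp5, phi_far h5 u _ p.reverse
      (fun k hk => hp5 k (by simpa using hk)), zero_add, add_zero, hp] at h2
    have h3 := phi_map h5 u hu gam 0
    rw [emb_zero, add_zero, phi5_gam] at h3
    rw [zero_add, h3] at h2
    simp [phi] at h2
  · rw [pow_two]
    show Quotient.mk (loopSetoid Q) (⟨L.1 ++ L.1, _⟩ : Loop n) = Quotient.mk (loopSetoid Q) ⟨[], rfl⟩
    apply Quotient.sound
    show Homot Q ((p ++ gam.map (io h5) ++ p.reverse) ++ (p ++ gam.map (io h5) ++ p.reverse)) []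
    have s1 := homot_cancel_ctx Q (p ++ gam.map (io h5)) (gam.map (io h5) ++ p.reverse) p
    have s2 := transfer hg gam_sq p p.reverse hp
    have s3 := homot_cancel_ctx Q [] [] p.reverse
    have e1 : (p ++ gam.map (io h5) ++ p.reverse) ++ (p ++ gam.map (io h5) ++ p.reverse) =
      (p ++ gam.map (io h5)) ++ (p.reverse ++ p) ++ (gam.map (io h5) ++ p.reverse) := by simp
    have e2 : (p ++ gam.map (io h5)) ++ (gam.map (io h5) ++ p.reverse) =
      p ++ (gam ++ gam).map (io h5) ++ p.reverse := by simp
    rw [e1]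
    refine s1.trans' ?_
    rw [e2]
    refine s2.trans' ?_
    simpa using s3

end transfer

end Pool.Agent.V11309.Tor
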